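import Mathlib
import Pool.Agent.Helper79.CF.Spec2

set_option autoImplicit false

/-!
# Effective Conjecture F, part DIF: sets which differ at finitely many places
-/

namespace Pool.Agent.Helper13.CF.DIF

open Finset Filter Topology
open Pool.Agent.Helper79.CF

lemma count_nonneg (S : Set ℕ) (N : ℕ) : 0 ≤ count S N := by
  unfold count
  positivity

lemma count_le {A A' : Set ℕ} {n0 : ℕ} (h : ∀ n, n0 ≤ n → n ∈ A' → n ∈ A) (N : ℕ) :
    count A' N ≤ count A N + n0 := by
  classical
  unfold count
  have h1 : (Icc 1 N).filter (fun n => n ∈ A') ⊆ (Icc 1 N).filter (fun n => n ∈ A) ∪ range n0 := by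
    intro n hn
    rw [mem_filter] at hn
    rw [mem_union, mem_filter, mem_range]
    rcases lt_or_ge n n0 with h2 | h2
    · exact Or.inr h2
    · exact Or.inl ⟨hn.1, h n h2 hn.2⟩
  have h2 := (card_le_card h1).trans (card_union_le _ _)
  rw [card_range] at h2
  have h3 : ((((Icc 1 N).filter (fun n => n ∈ A')).card : ℕ) : ℝ) ≤
      ((((Icc 1 N).filter (fun n => n ∈ A)).card + n0 : ℕ) : ℝ) := by exact_mod_cast h2
  push_cast at h3
  convert h3

lemma count_diff {A A' : Set ℕ} (h : ∀ᶠ n in atTop, (n ∈ A ↔ n ∈ A')) :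
    ∃ K : ℝ, ∀ N, |count A' N - count A N| ≤ K := by
  obtain ⟨n0, hn0⟩ := eventually_atTop.1 h
  refine ⟨n0, fun N => abs_le.2 ⟨?_, ?_⟩⟩
  · have := count_le (A := A') (A' := A) (fun n hn => (hn0 n hn).1) N
    linarith
  · have := count_le (A := A) (A' := A') (fun n hn => (hn0 n hn).2) N
    linarith

lemma log_div (S : Set ℕ) (hS : LogDense S) (r : ℕ) :
    Tendsto (fun N : ℕ => (Real.log N) ^ r / count S N) atTop (𝓝 0) := by
  obtain ⟨B, hB⟩ := hS
  have h1 : Tendsto (fun N : ℕ => (Real.log N) ^ (r + B) / (N : ℝ)) atTop (𝓝 0) := by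
    have h2 : Tendsto (fun x : ℝ => (Real.log x) ^ (r + B) / x) atTop (𝓝 0) := by
      have h3 := isLittleO_log_rpow_atTop (r := 1 / ((r + B : ℕ) + 1 : ℝ)) (by positivity)
      have h4 := h3.pow (n := r + B) 
      rcases Nat.eq_zero_or_pos (r + B) with h5 | h5
      · rw [h5]
        simp only [pow_zero]
        exact tendsto_const_nhds.div_atTop tendsto_id
      · have h6 := h4 h5
        have h7 : (fun x : ℝ => (x ^ (1 / (((r + B : ℕ) : ℝ) + 1))) ^ (r + B)) =O[atTop]
            (fun x : ℝ => x) := by
          apply Asymptotics.IsBigO.of_bound 1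
          filter_upwards [eventually_ge_atTop 1] with x hx
          rw [one_mul, Real.norm_of_nonneg (by positivity), Real.norm_of_nonneg (by positivity),
            ← Real.rpow_natCast, ← Real.rpow_mul (by positivity)]
          conv_rhs => rw [← Real.rpow_one x]
          apply Real.rpow_le_rpow_of_exponent_le hx
          rw [div_mul_eq_mul_div, one_mul, div_le_one (by positivity)]
          linarith
        have h8 := h6.trans_isBigO h7
        exact h8.tendsto_div_nhds_zero
    exact h2.comp tendsto_natCast_atTop_atTop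
  refine squeeze_zero' (Eventually.of_forall fun N => div_nonneg (pow_nonneg
    (Real.log_natCast_nonneg N) r) (count_nonneg S N)) ?_ h1
  filter_upwards [hB, eventually_ge_atTop 3] with N hN hN3
  have hN3' : (3 : ℝ) ≤ N := by exact_mod_cast hN3
  have hl : 0 < Real.log N := Real.log_pos (by linarith)
  have h2 : 0 < (N : ℝ) / (Real.log N) ^ B := by positivity
  have h3 : 0 < count S N := h2.trans_le hN
  rw [div_le_div_iff₀ h3 (by linarith)]
  rw [div_le_iff₀ (by positivity)] at hN
  calc (Real.log N) ^ r * (N : ℝ) ≤ (Real.log N) ^ r * (count S N * (Real.log N) ^ B) :=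
        mul_le_mul_of_nonneg_left hN (by positivity)
    _ = (Real.log N) ^ (r + B) * count S N := by rw [pow_add]; ring

lemma bdd_mul {u v : ℕ → ℝ} {K : ℝ} (hu : ∀ N, |u N| ≤ K) (hv : Tendsto v atTop (𝓝 0)) :
    Tendsto (fun N => u N * v N) atTop (𝓝 0) := by
  have h1 : Tendsto (fun N => K * |v N|) atTop (𝓝 0) := by
    have := (hv.abs).const_mul K
    simpa using this
  refine squeeze_zero_norm (fun N => ?_) h1
  rw [Real.norm_eq_abs, abs_mul]
  exact mul_le_mul_of_nonneg_right (hu N) (abs_nonneg _)

theorem main : S_DIF := by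
  intro A A' S S' r L hS hA hSS hlim
  obtain ⟨K, hK⟩ := count_diff hA
  obtain ⟨K', hK'⟩ := count_diff hSS
  have h0 := log_div S hS 0
  have hr := log_div S hS r
  have hpos : ∀ᶠ N : ℕ in atTop, 0 < count S N := by
    obtain ⟨B, hB⟩ := hS
    filter_upwards [hB, eventually_ge_atTop 3] with N hN hN3
    have hN3' : (3 : ℝ) ≤ N := by exact_mod_cast hN3
    have hl : 0 < Real.log N := Real.log_pos (by linarith)
    have h2 : 0 < (N : ℝ) / (Real.log N) ^ B := by positivity
    exact h2.trans_le hN
  have h1 : Tendsto (fun N : ℕ => count S' N / count S N) atTop (𝓝 1) := by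
    have h2 := (bdd_mul hK' h0).const_add 1
    rw [add_zero] at h2
    refine h2.congr' ?_
    filter_upwards [hpos] with N hN
    field_simp
    ring
  have h2 : Tendsto (fun N : ℕ => count S N / count S' N) atTop (𝓝 1) := by
    have h3 := h1.inv₀ one_ne_zero
    rw [inv_one] at h3
    refine h3.congr fun N => ?_
    rw [inv_div]
  have h3 : Tendsto (fun N : ℕ => count A' N * (Real.log N) ^ r / count S N) atTop (𝓝 L) := by
    have h4 := hlim.add (bdd_mul hK hr)
    rw [add_zero] at h4
    refine h4.congr fun N => ?_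
    ring
  have h5 := h3.mul h2
  rw [mul_one] at h5
  refine h5.congr' ?_
  filter_upwards [hpos] with N hN
  field_simp

end Pool.Agent.Helper13.CF.DIF
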